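import Pool.Agent.J4.H57.SH.Hb
import Pool.Agent.W270.TM.Glob

/-!
# The coordinates for the newforms attached to an elliptic curve, in terms of its height (helper57)
-/

set_option autoImplicit false

namespace Pool.Agent.J4.H57.SH

open Finset
open Pool.Agent.TH133.SH (IsNewform IsBasis CoordBound Hval)
open Pool.Agent.H925R.Szpiro (D IsMin condS)
open Pool.Agent.H39R3 (GMin condW condW_pos cond_le shortW)

/-- the newform is attached to the curve -/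
structure Att (N : ℕ) (a : ℕ → ℤ) (W : WeierstrassCurve ℤ) (ρ : ℝ) : Prop where
  new : IsNewform N a
  lev : condW W ∣ N
  tr : ∀ p : ℕ, p.Prime → a p = (p : ℤ) - (cnt W p : ℤ)
  bad : ∀ p : ℕ, p.Prime → p ∣ N → ∀ n : ℕ, a (p * n) = a p * a n
  pos : 0 < ρ
  per : ∃ L : PeriodPair, L.g₂ = (W.c₄ : ℂ) / 12 ∧ L.g₃ = (W.c₆ : ℂ) / 216 ∧
    ∀ p q r s : ℤ, p * s - q * r = 1 → (N : ℤ) ∣ r → (ρ : ℂ) * Hval a p q r s ∈ L.lattice

theorem Att.rel {N : ℕ} {a : ℕ → ℤ} {W : WeierstrassCurve ℤ} {ρ : ℝ} (h : Att N a W ρ) :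
    Rel a := by
  refine ⟨h.new.zero, h.new.one, fun p hp => ?_, ?_, fun p hp => ?_⟩
  · rw [h.tr p hp]
    push_cast
    exact cnt_weil W hp
  · rw [h.tr 2 Nat.prime_two]
    have h1 := cnt_le W Nat.prime_two
    have h2 : (cnt W 2 : ℝ) ≤ 4 := by exact_mod_cast h1
    have h3 : (0 : ℝ) ≤ cnt W 2 := Nat.cast_nonneg _
    push_cast
    rw [abs_le]
    constructor <;> linarith
  · by_cases hpN : p ∣ N
    · exact Or.inr (h.bad p hp hpN)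
    · exact Or.inl (h.new.hecke p hp hpN)

/-- the coordinates in terms of the height of the curve -/
theorem att_coords {ε : ℝ} (hε : 0 < ε) : ∃ C : ℝ, 0 < C ∧
    ∀ (N : ℕ) (a : ℕ → ℤ) (W : WeierstrassCurve ℤ) (ρ R : ℝ) (Ω₁ Ω₂ : ℂ), 1 ≤ N → Att N a W ρ →
      0 < R → max (|(W.c₄ : ℝ)| ^ 3) ((W.c₆ : ℝ) ^ 2) ≤ R ^ 12 → IsBasis N a Ω₁ Ω₂ →
      ∀ p q r s : ℤ, p * s - q * r = 1 → (N : ℤ) ∣ r →
        (|r| ≤ (N : ℤ) ^ 2 → CoordBound a Ω₁ Ω₂ p q r s (C * ρ * R * (N : ℝ) ^ (1 + ε))) ∧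
        (r ≠ 0 → CoordBound a Ω₁ Ω₂ p q r s
          (C * ρ * R * (N : ℝ) ^ (3 / 2 + ε) * (1 + Real.log |(r : ℝ)|))) := by
  obtain ⟨C, hC, h0⟩ := coords (ε := ε / 2) (by positivity)
  refine ⟨3 / 2 * C, by positivity, fun N a W ρ R Ω₁ Ω₂ hN h hR hH hb p q r s hdet hr => ?_⟩
  obtain ⟨L, e2, e3, hL⟩ := h.per
  have hNR : (1 : ℝ) ≤ N := by exact_mod_cast hN
  have h2 : ‖L.g₂‖ ≤ R ^ 4 := by
    have h4 : |(W.c₄ : ℝ)| ^ 3 ≤ (R ^ 4) ^ 3 := by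
      rw [← pow_mul]
      exact (le_max_left _ _).trans hH
    have h5 : |(W.c₄ : ℝ)| ≤ R ^ 4 := (pow_le_pow_iff_left₀ (abs_nonneg _) (by positivity)
      (by norm_num)).mp h4
    rw [e2, norm_div, Complex.norm_intCast]
    have : ‖(12 : ℂ)‖ = 12 := by norm_num
    rw [this, div_le_iff₀ (by norm_num)]
    have : 0 ≤ R ^ 4 := by positivity
    linarith
  have h3 : ‖L.g₃‖ ≤ R ^ 6 := by
    have h4 : |(W.c₆ : ℝ)| ^ 2 ≤ (R ^ 6) ^ 2 := by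
      rw [← pow_mul, sq_abs]
      exact (le_max_right _ _).trans hH
    have h5 : |(W.c₆ : ℝ)| ≤ R ^ 6 := (pow_le_pow_iff_left₀ (abs_nonneg _) (by positivity)
      (by norm_num)).mp h4
    rw [e3, norm_div, Complex.norm_intCast]
    have : ‖(216 : ℂ)‖ = 216 := by norm_num
    rw [this, div_le_iff₀ (by norm_num)]
    have : 0 ≤ R ^ 6 := by positivity
    linarith
  have hs := Pool.Agent.N365.SM.sep_of L h.pos hR h2 h3 hL
  have hρ := h.pos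
  obtain ⟨k1, k2⟩ := h0 N a ρ (2 / (3 * R)) Ω₁ Ω₂ hN hs h.new.toIsForm h.rel hb p q r s hdet hr
  have q0 : C * (ρ / (2 / (3 * R))) = 3 / 2 * C * ρ * R := by
    field_simp
  rw [q0] at k1 k2
  refine ⟨fun hrN m n hmn => ?_, fun hr0 m n hmn => ?_⟩
  · obtain ⟨a1, a2⟩ := k1 m n hmn
    have h5 : |(r : ℝ)| ≤ (N : ℝ) ^ 2 := by exact_mod_cast hrN
    have h6 : |(r : ℝ)| ^ (1 / 2 + ε / 2) ≤ (N : ℝ) ^ (1 + ε) := by
      have h7 := Real.rpow_le_rpow (abs_nonneg _) h5 (by linarith : 0 ≤ 1 / 2 + ε / 2)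
      refine h7.trans (le_of_eq ?_)
      rw [← Real.rpow_natCast, ← Real.rpow_mul (by linarith)]
      congr 1
      push_cast
      ring
    have h8 : 3 / 2 * C * ρ * R * |(r : ℝ)| ^ (1 / 2 + ε / 2) ≤
        3 / 2 * C * ρ * R * (N : ℝ) ^ (1 + ε) := mul_le_mul_of_nonneg_left h6 (by positivity)
    exact ⟨a1.trans h8, a2.trans h8⟩
  · obtain ⟨a1, a2⟩ := k2 hr0 m n hmn
    have hlog : 0 ≤ 1 + Real.log |(r : ℝ)| := by
      have h1 : (1 : ℝ) ≤ |(r : ℝ)| := by exact_mod_cast Int.one_le_abs hr0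
      have := Real.log_nonneg h1
      linarith
    have h8 : 3 / 2 * C * ρ * R * (N : ℝ) ^ (3 / 2 + ε / 2) * (1 + Real.log |(r : ℝ)|) ≤
        3 / 2 * C * ρ * R * (N : ℝ) ^ (3 / 2 + ε) * (1 + Real.log |(r : ℝ)|) := by
      refine mul_le_mul_of_nonneg_right ?_ hlog
      refine mul_le_mul_of_nonneg_left ?_ (by positivity)
      exact Real.rpow_le_rpow_of_exponent_le hNR (by linarith)
    exact ⟨a1.trans h8, a2.trans h8⟩

/-- `W` is isomorphic over `ℚ` to `y² = x³ - q.1 x - q.2` -/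
def Iso (W : WeierstrassCurve ℤ) (q : ℤ × ℤ) : Prop :=
  ∃ C : WeierstrassCurve.VariableChange ℚ,
    C • W.map (Int.castRingHom ℚ) = (shortW q.1 q.2).map (Int.castRingHom ℚ)

/-- two minimal pairs which differ by a scaling are equal -/
theorem eq_of_scale {a b a' b' : ℤ} (h : IsMin a b) (h' : IsMin a' b') {t : ℚ} (ht : t ≠ 0)
    (ha : (a' : ℚ) = t ^ 4 * a) (hb : (b' : ℚ) = t ^ 6 * b) : a' = a ∧ b' = b := by
  have h1 := h.2 t a' b' ht ha hb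
  have h2 := h'.2 t⁻¹ a b (inv_ne_zero ht) (by rw [ha]; field_simp) (by rw [hb]; field_simp)
  have h3 : |D a b| = |D a' b'| := le_antisymm h1 h2
  have h4 := Pool.Agent.H39R3.D_scale t a b a' b' ha hb
  have h5 : ((|D a b| : ℤ) : ℚ) = |t| ^ 12 * ((|D a b| : ℤ) : ℚ) := by
    conv_lhs => rw [h3]
    rw [Int.cast_abs, Int.cast_abs, h4, abs_mul, abs_pow]
  have h6 : ((|D a b| : ℤ) : ℚ) ≠ 0 := by
    have := h.1
    exact_mod_cast abs_ne_zero.2 this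
  have h7 : |t| ^ 12 = 1 := by
    have h8 : (|t| ^ 12 - 1) * ((|D a b| : ℤ) : ℚ) = 0 := by linarith
    rcases mul_eq_zero.1 h8 with h9 | h9
    · linarith
    · exact absurd h9 h6
  have h8 : |t| = 1 := (pow_eq_one_iff_of_nonneg (abs_nonneg _) (by norm_num)).1 h7
  have h9 : t ^ 2 = 1 := by rw [← sq_abs, h8, one_pow]
  have e4 : t ^ 4 = 1 := by
    calc t ^ 4 = (t ^ 2) ^ 2 := by ring
      _ = 1 := by rw [h9, one_pow]
  have e6 : t ^ 6 = 1 := by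
    calc t ^ 6 = (t ^ 2) ^ 3 := by ring
      _ = 1 := by rw [h9, one_pow]
  rw [e4, one_mul] at ha
  rw [e6, one_mul] at hb
  exact ⟨by exact_mod_cast ha, by exact_mod_cast hb⟩

/-- the height and the conductor of `W` in terms of its minimal short equation -/
theorem short_of {W : WeierstrassCurve ℤ} (hW : GMin W) {q : ℤ × ℤ} (hq : IsMin q.1 q.2)
    (hiso : Iso W q) :
    max (|(W.c₄ : ℝ)| ^ 3) ((W.c₆ : ℝ) ^ 2) ≤
      27648 * ((max (4 * |q.1| ^ 3) (27 * q.2 ^ 2) : ℤ) : ℝ) ∧ condS q.1 q.2 ≤ condW W := by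
  obtain ⟨a, b, r, s, hmin, ⟨u, hu, hua, hub⟩, hs0, hsr, hr6, e4, e6, e12, hrs⟩ :=
    Pool.Agent.W270.TM.intsR W hW
  obtain ⟨C, hC⟩ := hiso
  have hr0 : 0 < r := lt_of_lt_of_le hs0 hsr
  -- the scaling
  obtain ⟨w, hw⟩ : ∃ w : ℚ, w = ((C.u⁻¹ : ℚˣ) : ℚ) := ⟨_, rfl⟩
  have hw0 : w ≠ 0 := by rw [hw]; exact Units.ne_zero _
  have k4 : 48 * (q.1 : ℚ) = w ^ 4 * (W.c₄ : ℚ) := by
    have h1 := congrArg WeierstrassCurve.c₄ hC
    rw [WeierstrassCurve.variableChange_c₄, WeierstrassCurve.map_c₄, WeierstrassCurve.map_c₄,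
      Pool.Agent.H39R3.shortW_c4] at h1
    rw [hw, ← Units.val_pow_eq_pow_val]
    simp only [eq_intCast] at h1
    push_cast at h1 ⊢
    exact h1.symm
  have k6 : 864 * (q.2 : ℚ) = w ^ 6 * (W.c₆ : ℚ) := by
    have h1 := congrArg WeierstrassCurve.c₆ hC
    rw [WeierstrassCurve.variableChange_c₆, WeierstrassCurve.map_c₆, WeierstrassCurve.map_c₆,
      Pool.Agent.H39R3.shortW_c6] at h1
    rw [hw, ← Units.val_pow_eq_pow_val]
    simp only [eq_intCast] at h1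
    push_cast at h1 ⊢
    exact h1.symm
  obtain ⟨hqa, hqb⟩ := eq_of_scale hmin hq (t := w / (6 * u)) (by
      have : (6 : ℚ) * u ≠ 0 := mul_ne_zero (by norm_num) hu
      exact div_ne_zero hw0 this) (by
      rw [hua]
      push_cast
      field_simp
      linarith) (by
      rw [hub]
      push_cast
      field_simp
      linarith)
  rw [hqa, hqb]
  refine ⟨?_, cond_le W a b r s hr6 e4 e12 hW.1⟩
  have hc4 : |(W.c₄ : ℝ)| ≤ 48 * |(a : ℝ)| := by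
    have h1 : (r : ℝ) ^ 4 * |(W.c₄ : ℝ)| = 48 * |(a : ℝ)| * (s : ℝ) ^ 4 := by
      have h2 := congrArg (fun z : ℤ => |(z : ℝ)|) e4
      simp only [Int.cast_mul, Int.cast_pow, abs_mul, abs_pow, Int.cast_natCast, Nat.abs_cast] at h2
      rw [← h2]
      norm_num
    have h3 : (s : ℝ) ^ 4 ≤ (r : ℝ) ^ 4 := pow_le_pow_left₀ (Nat.cast_nonneg _) (by exact_mod_cast hsr) 4
    have hr4 : (0 : ℝ) < (r : ℝ) ^ 4 := by positivity
    have h4 : (r : ℝ) ^ 4 * |(W.c₄ : ℝ)| ≤ (r : ℝ) ^ 4 * (48 * |(a : ℝ)|) := by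
      rw [h1]
      have := mul_le_mul_of_nonneg_left h3 (by positivity : 0 ≤ 48 * |(a : ℝ)|)
      linarith
    exact le_of_mul_le_mul_left h4 hr4
  have hc6 : |(W.c₆ : ℝ)| ≤ 864 * |(b : ℝ)| := by
    have h1 : (r : ℝ) ^ 6 * |(W.c₆ : ℝ)| = 864 * |(b : ℝ)| * (s : ℝ) ^ 6 := by
      have h2 := congrArg (fun z : ℤ => |(z : ℝ)|) e6
      simp only [Int.cast_mul, Int.cast_pow, abs_mul, abs_pow, Int.cast_natCast, Nat.abs_cast] at h2
      rw [← h2]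
      norm_num
    have h3 : (s : ℝ) ^ 6 ≤ (r : ℝ) ^ 6 := pow_le_pow_left₀ (Nat.cast_nonneg _) (by exact_mod_cast hsr) 6
    have hr4 : (0 : ℝ) < (r : ℝ) ^ 6 := by positivity
    have h4 : (r : ℝ) ^ 6 * |(W.c₆ : ℝ)| ≤ (r : ℝ) ^ 6 * (864 * |(b : ℝ)|) := by
      rw [h1]
      have := mul_le_mul_of_nonneg_left h3 (by positivity : 0 ≤ 864 * |(b : ℝ)|)
      linarith
    exact le_of_mul_le_mul_left h4 hr4
  have m1 : (4 * |(a : ℝ)| ^ 3) ≤ ((max (4 * |a| ^ 3) (27 * b ^ 2) : ℤ) : ℝ) := by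
    have h1 : 4 * |a| ^ 3 ≤ max (4 * |a| ^ 3) (27 * b ^ 2) := le_max_left _ _
    have h2 : ((4 * |a| ^ 3 : ℤ) : ℝ) ≤ ((max (4 * |a| ^ 3) (27 * b ^ 2) : ℤ) : ℝ) := by
      exact_mod_cast h1
    push_cast at h2 ⊢
    exact h2
  have m2 : (27 * (b : ℝ) ^ 2) ≤ ((max (4 * |a| ^ 3) (27 * b ^ 2) : ℤ) : ℝ) := by
    have h1 : 27 * b ^ 2 ≤ max (4 * |a| ^ 3) (27 * b ^ 2) := le_max_right _ _
    have h2 : ((27 * b ^ 2 : ℤ) : ℝ) ≤ ((max (4 * |a| ^ 3) (27 * b ^ 2) : ℤ) : ℝ) := by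
      exact_mod_cast h1
    push_cast at h2 ⊢
    exact h2
  refine max_le ?_ ?_
  · have h1 : |(W.c₄ : ℝ)| ^ 3 ≤ (48 * |(a : ℝ)|) ^ 3 := pow_le_pow_left₀ (abs_nonneg _) hc4 3
    have h2 : (48 * |(a : ℝ)|) ^ 3 = 27648 * (4 * |(a : ℝ)| ^ 3) := by ring
    rw [h2] at h1
    linarith
  · have h1 : (W.c₆ : ℝ) ^ 2 ≤ (864 * |(b : ℝ)|) ^ 2 := by
      rw [← sq_abs (W.c₆ : ℝ)]
      exact pow_le_pow_left₀ (abs_nonneg _) hc6 2
    have h2 : (864 * |(b : ℝ)|) ^ 2 = 27648 * (27 * (b : ℝ) ^ 2) := by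
      rw [mul_pow, sq_abs]
      ring
    rw [h2] at h1
    linarith

end Pool.Agent.J4.H57.SH
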