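import Pool.Agent.J4.H57.SH.Weil

/-!
# The Dirichlet series of the absolute values of the coefficients (helper57)
-/

set_option autoImplicit false

namespace Pool.Agent.J4.H57.SH

open Finset

/-- a partial sum of a completely multiplicative function is at most its Euler product -/
theorem sum_le_prod {f : ℕ →* ℝ} (h0 : ∀ n, 0 ≤ f n) (h00 : f 0 = 0)
    (h1 : ∀ {p : ℕ}, p.Prime → f p < 1) (M : ℕ) :
    ∑ n ∈ range M, f n ≤ ∏ p ∈ M.primesBelow, (1 - f p)⁻¹ := by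
  classical
  have hlt : ∀ {p : ℕ}, p.Prime → ‖f p‖ < 1 := by
    intro p hp
    rw [Real.norm_eq_abs, abs_of_nonneg (h0 p)]
    exact h1 hp
  obtain ⟨-, hs⟩ := EulerProduct.summable_and_hasSum_smoothNumbers_prod_primesBelow_geometric hlt M
  obtain ⟨T, hT⟩ : ∃ T, T = (range M).filter (fun n => 0 < n) := ⟨_, rfl⟩
  have e1 : ∑ n ∈ range M, f n = ∑ n ∈ T, f n := by
    rw [hT, sum_filter]
    refine sum_congr rfl fun n _ => ?_
    split_ifs with h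
    · rfl
    · have : n = 0 := by omega
      rw [this, h00]
  have hmem : ∀ n ∈ T, n ∈ M.smoothNumbers := by
    intro n hn
    rw [hT, mem_filter, mem_range] at hn
    exact Nat.mem_smoothNumbers_of_lt hn.2 hn.1
  rw [e1, ← Finset.sum_subtype_of_mem (fun n => f n) hmem]
  exact sum_le_hasSum _ (fun m _ => h0 m) hs

/-- `n ^ (- σ)` -/
noncomputable def pwm (σ : ℝ) : ℕ →* ℝ where
  toFun n := (n : ℝ) ^ (-σ)
  map_one' := by simp
  map_mul' m n := by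
    push_cast
    exact Real.mul_rpow (Nat.cast_nonneg _) (Nat.cast_nonneg _)

theorem prod_pw {σ : ℝ} (hσ : 1 < σ) : ∃ C : ℝ, 1 ≤ C ∧ ∀ M : ℕ,
    ∏ p ∈ M.primesBelow, (1 - (p : ℝ) ^ (-σ))⁻¹ ≤ C := by
  have hsum : Summable (fun n : ℕ => (n : ℝ) ^ (-σ)) := by
    rw [Real.summable_nat_rpow]
    linarith
  refine ⟨max 1 (∑' n : ℕ, (n : ℝ) ^ (-σ)), le_max_left _ _, fun M => ?_⟩
  have h1 : ∀ {p : ℕ}, p.Prime → ‖pwm σ p‖ < 1 := by
    intro p hp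
    have h2 : (1 : ℝ) < p := by exact_mod_cast hp.one_lt
    have h3 : (p : ℝ) ^ (-σ) < 1 := Real.rpow_lt_one_of_one_lt_of_neg h2 (by linarith)
    have h4 : (0 : ℝ) ≤ (p : ℝ) ^ (-σ) := Real.rpow_nonneg (by linarith) _
    show ‖(p : ℝ) ^ (-σ)‖ < 1
    rw [Real.norm_eq_abs, abs_of_nonneg h4]
    exact h3
  obtain ⟨-, hs⟩ := EulerProduct.summable_and_hasSum_smoothNumbers_prod_primesBelow_geometric h1 M
  have e : ∏ p ∈ M.primesBelow, (1 - (p : ℝ) ^ (-σ))⁻¹ =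
      ∑' m : M.smoothNumbers, ((m : ℕ) : ℝ) ^ (-σ) := hs.tsum_eq.symm
  rw [e]
  refine le_trans ?_ (le_max_right _ _)
  exact hsum.tsum_subtype_le _ _ (fun n => Real.rpow_nonneg (Nat.cast_nonneg _) _)

/-- the majorant `n ^ (- σ) 2 ^ Ω(n) (√2) ^ (- v₂ n)` -/
noncomputable def gg (σ : ℝ) (hσ : σ ≠ 0) : ℕ →* ℝ where
  toFun n := (n : ℝ) ^ (-σ) * tw n * (Real.sqrt 2)⁻¹ ^ (padicValNat 2 n)
  map_one' := by simp [tw]
  map_mul' m n := by
    rcases Nat.eq_zero_or_pos m with hm | hm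
    · subst hm
      rw [zero_mul, Nat.cast_zero, Real.zero_rpow (neg_ne_zero.2 hσ)]
      ring
    rcases Nat.eq_zero_or_pos n with hn | hn
    · subst hn
      rw [mul_zero, Nat.cast_zero, Real.zero_rpow (neg_ne_zero.2 hσ)]
      ring
    rw [tw_mul hm.ne' hn.ne', padicValNat.mul hm.ne' hn.ne', pow_add]
    push_cast
    rw [Real.mul_rpow (Nat.cast_nonneg _) (Nat.cast_nonneg _)]
    ring

theorem gg_apply (σ : ℝ) (hσ : σ ≠ 0) (n : ℕ) :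
    gg σ hσ n = (n : ℝ) ^ (-σ) * tw n * (Real.sqrt 2)⁻¹ ^ (padicValNat 2 n) := rfl

theorem gg_nonneg (σ : ℝ) (hσ : σ ≠ 0) (n : ℕ) : 0 ≤ gg σ hσ n := by
  rw [gg_apply]
  have : 0 ≤ tw n := by unfold tw; positivity
  positivity

theorem gg_zero (σ : ℝ) (hσ : σ ≠ 0) : gg σ hσ 0 = 0 := by
  rw [gg_apply, Nat.cast_zero, Real.zero_rpow (neg_ne_zero.2 hσ)]
  ring

theorem gg_odd {σ : ℝ} (hσ : σ ≠ 0) {p : ℕ} (hp : p.Prime) (h2 : p ≠ 2) :
    gg σ hσ p = 2 * (p : ℝ) ^ (-σ) := by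
  rw [gg_apply]
  have h1 : tw p = 2 := by
    have := tw_prime_pow hp 1
    simpa using this
  have h3 : padicValNat 2 p = 0 := padicValNat_primes (p := 2) (q := p)
    (hp := ⟨Nat.prime_two⟩) (hq := ⟨hp⟩) (Ne.symm h2)
  rw [h1, h3, pow_zero]
  ring

theorem gg_two {σ : ℝ} (hσ : σ ≠ 0) : gg σ hσ 2 = 2 * (2 : ℝ) ^ (-σ) * (Real.sqrt 2)⁻¹ := by
  rw [gg_apply]
  have h1 : tw 2 = 2 := by
    have := tw_prime_pow Nat.prime_two 1
    simpa using this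
  have h3 : padicValNat 2 2 = 1 := padicValNat.self (by norm_num)
  rw [h1, h3, pow_one]
  push_cast
  ring

theorem gg_two_le {σ : ℝ} (hσ : 1 < σ) : gg σ (by linarith : σ ≠ 0) 2 ≤ 5 / 7 := by
  rw [gg_two]
  have h1 : (2 : ℝ) ^ (-σ) ≤ 2 ^ (-1 : ℝ) := Real.rpow_le_rpow_of_exponent_le (by norm_num)
    (by linarith)
  rw [Real.rpow_neg_one] at h1
  have hlo : (1.4 : ℝ) ≤ Real.sqrt 2 := by
    refine Real.le_sqrt_of_sq_le ?_
    norm_num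
  have h2 : (Real.sqrt 2)⁻¹ ≤ (1.4 : ℝ)⁻¹ := inv_anti₀ (by norm_num) hlo
  have h3 : 0 ≤ (Real.sqrt 2)⁻¹ := by positivity
  calc 2 * (2 : ℝ) ^ (-σ) * (Real.sqrt 2)⁻¹ ≤ 2 * 2⁻¹ * (1.4 : ℝ)⁻¹ := by
        refine mul_le_mul (by linarith) h2 h3 (by norm_num)
    _ = 5 / 7 := by norm_num

theorem three_le {p : ℕ} (hp : p.Prime) (h2 : p ≠ 2) : 3 ≤ p := by
  have := hp.two_le
  omega

theorem pw_le_third {σ : ℝ} (hσ : 1 < σ) {p : ℕ} (h3 : 3 ≤ p) : (p : ℝ) ^ (-σ) ≤ 1 / 3 := by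
  have h3' : (3 : ℝ) ≤ p := by exact_mod_cast h3
  calc (p : ℝ) ^ (-σ) ≤ (p : ℝ) ^ (-1 : ℝ) :=
        Real.rpow_le_rpow_of_exponent_le (by linarith) (by linarith)
    _ = (p : ℝ)⁻¹ := Real.rpow_neg_one _
    _ ≤ (3 : ℝ)⁻¹ := inv_anti₀ (by norm_num) h3'
    _ = 1 / 3 := by norm_num

theorem gg_lt_one {σ : ℝ} (hσ : 1 < σ) {p : ℕ} (hp : p.Prime) :
    gg σ (by linarith : σ ≠ 0) p < 1 := by
  by_cases h2 : p = 2
  · subst h2
    have := gg_two_le hσ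
    linarith
  · rw [gg_odd _ hp h2]
    have := pw_le_third hσ (three_le hp h2)
    linarith

/-- the partial sums of the majorant are bounded -/
theorem gg_sum {σ : ℝ} (hσ : 1 < σ) : ∃ C : ℝ, 0 < C ∧ ∀ M : ℕ,
    ∑ n ∈ range M, gg σ (by linarith : σ ≠ 0) n ≤ C := by
  classical
  obtain ⟨C, hC1, hC⟩ := prod_pw hσ
  have hσ0 : σ ≠ 0 := by linarith
  refine ⟨7 / 2 * C ^ 3, by positivity, fun M => ?_⟩
  refine (sum_le_prod (gg_nonneg σ hσ0) (gg_zero σ hσ0) (fun hp => gg_lt_one hσ hp) M).trans ?_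
  have hfac : ∀ p ∈ M.primesBelow, (1 - gg σ hσ0 p)⁻¹ ≤
      (if p = 2 then 7 / 2 else 1) * ((1 - (p : ℝ) ^ (-σ))⁻¹) ^ 3 := by
    intro p hp
    have hpp := Nat.prime_of_mem_primesBelow hp
    have h1 : (0 : ℝ) ≤ (p : ℝ) ^ (-σ) := Real.rpow_nonneg (Nat.cast_nonneg _) _
    by_cases h2 : p = 2
    · rw [if_pos h2]
      subst h2
      have h3 := gg_two_le hσ
      have h4 : (1 - gg σ hσ0 2)⁻¹ ≤ (1 - 5 / 7 : ℝ)⁻¹ := inv_anti₀ (by norm_num) (by linarith)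
      have h5 : ((2 : ℕ) : ℝ) ^ (-σ) < 1 := Real.rpow_lt_one_of_one_lt_of_neg (by norm_num)
        (by linarith)
      have h6 : 1 ≤ (1 - ((2 : ℕ) : ℝ) ^ (-σ))⁻¹ := by
        rw [one_le_inv₀ (by linarith)]
        linarith
      have h7 : 1 ≤ ((1 - ((2 : ℕ) : ℝ) ^ (-σ))⁻¹) ^ 3 := one_le_pow₀ h6
      norm_num at h4
      linarith
    · rw [if_neg h2, one_mul, gg_odd _ hpp h2]
      have h3 := pw_le_third hσ (three_le hpp h2)
      obtain ⟨x, hx⟩ : ∃ x : ℝ, x = (p : ℝ) ^ (-σ) := ⟨_, rfl⟩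
      rw [← hx] at h1 h3 ⊢
      rw [inv_pow]
      refine inv_anti₀ (by
        have : 0 < 1 - x := by linarith
        positivity) ?_
      nlinarith [mul_nonneg h1 h1, mul_nonneg (mul_nonneg h1 h1) h1]
  have hpos : ∀ p ∈ M.primesBelow, 0 ≤ (1 - gg σ hσ0 p)⁻¹ := by
    intro p hp
    have := gg_lt_one hσ (Nat.prime_of_mem_primesBelow hp)
    exact inv_nonneg.2 (by linarith)
  refine (prod_le_prod hpos hfac).trans ?_
  rw [prod_mul_distrib, prod_pow]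
  have hprodpos : 0 ≤ ∏ p ∈ M.primesBelow, (1 - (p : ℝ) ^ (-σ))⁻¹ := by
    refine prod_nonneg fun p hp => ?_
    have h2 : (1 : ℝ) < p := by exact_mod_cast (Nat.prime_of_mem_primesBelow hp).one_lt
    have h3 : (p : ℝ) ^ (-σ) < 1 := Real.rpow_lt_one_of_one_lt_of_neg h2 (by linarith)
    exact inv_nonneg.2 (by linarith)
  have h2 : ∏ p ∈ M.primesBelow, (if p = 2 then (7 / 2 : ℝ) else 1) ≤ 7 / 2 := by
    rw [prod_ite_eq']
    split_ifs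
    · exact le_rfl
    · norm_num
  have h3 : (∏ p ∈ M.primesBelow, (1 - (p : ℝ) ^ (-σ))⁻¹) ^ 3 ≤ C ^ 3 :=
    pow_le_pow_left₀ hprodpos (hC M) 3
  exact mul_le_mul h2 h3 (by positivity) (by norm_num)

/-- the terms of the Dirichlet series -/
theorem Rel.term {a : ℕ → ℤ} (h : Rel a) {ε : ℝ} (hε : 0 < ε) (n : ℕ) :
    |(a n : ℝ)| * (n : ℝ) ^ (-(3 / 2 + ε)) ≤ 3 / 2 * gg (1 + ε) (by linarith) n := by
  rcases Nat.eq_zero_or_pos n with hn | hn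
  · subst hn
    rw [h.zero, gg_zero]
    simp
  obtain ⟨k, m, hm, hkm⟩ := Nat.exists_eq_two_pow_mul_odd hn.ne'
  have h2m : ¬ 2 ∣ m := by
    intro hd
    rw [Nat.odd_iff] at hm
    omega
  have hm0 : m ≠ 0 := by
    rintro rfl
    exact h2m (dvd_zero _)
  have h1 := h.all (k := k) h2m
  rw [← hkm] at h1
  have hv : padicValNat 2 n = k := by
    rw [hkm, padicValNat.mul (by positivity) hm0, padicValNat.prime_pow,
      padicValNat.eq_zero_of_not_dvd h2m, add_zero]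
  have htw : tw n = 2 ^ k * tw m := by
    rw [hkm, tw_mul (by positivity) hm0, tw_prime_pow Nat.prime_two]
  have hnR : (0 : ℝ) < n := by exact_mod_cast hn
  have hmR : (0 : ℝ) < m := by exact_mod_cast Nat.pos_of_ne_zero hm0
  rw [gg_apply, hv, htw]
  have e1 : (n : ℝ) ^ (-(3 / 2 + ε)) = (n : ℝ) ^ (-(1 + ε)) * (Real.sqrt n)⁻¹ := by
    rw [Real.sqrt_eq_rpow, ← Real.rpow_neg hnR.le, ← Real.rpow_add hnR]
    congr 1
    ring
  have e2 : Real.sqrt n = Real.sqrt 2 ^ k * Real.sqrt m := by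
    rw [hkm]
    push_cast
    rw [Real.sqrt_mul (by positivity)]
    congr 1
    rw [Real.sqrt_eq_iff_mul_self_eq (by positivity) (by positivity), ← mul_pow,
      Real.mul_self_sqrt (by norm_num)]
  rw [e1, e2]
  have h2 : (0 : ℝ) < (n : ℝ) ^ (-(1 + ε)) := Real.rpow_pos_of_pos hnR _
  have hs2 : (0 : ℝ) < Real.sqrt 2 := by positivity
  have hsm : (0 : ℝ) < Real.sqrt m := Real.sqrt_pos.2 hmR
  have h3 : (0 : ℝ) ≤ (n : ℝ) ^ (-(1 + ε)) * (Real.sqrt 2 ^ k * Real.sqrt m)⁻¹ := by positivity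
  refine (mul_le_mul_of_nonneg_right h1 h3).trans (le_of_eq ?_)
  rw [inv_pow]
  field_simp

/-- **the Dirichlet series** -/
theorem dir {ε : ℝ} (hε : 0 < ε) : ∃ C : ℝ, 0 < C ∧ ∀ a : ℕ → ℤ, Rel a →
    Summable (fun n : ℕ => |(a n : ℝ)| * (n : ℝ) ^ (-(3 / 2 + ε))) ∧
    ∑' n : ℕ, |(a n : ℝ)| * (n : ℝ) ^ (-(3 / 2 + ε)) ≤ C := by
  obtain ⟨C, hC, h⟩ := gg_sum (σ := 1 + ε) (by linarith)
  refine ⟨3 / 2 * C, by positivity, fun a ha => ?_⟩
  have hnn : ∀ n : ℕ, 0 ≤ |(a n : ℝ)| * (n : ℝ) ^ (-(3 / 2 + ε)) := fun n => by positivity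
  have hpart : ∀ M : ℕ, ∑ n ∈ range M, |(a n : ℝ)| * (n : ℝ) ^ (-(3 / 2 + ε)) ≤ 3 / 2 * C := by
    intro M
    refine (sum_le_sum fun n _ => ha.term hε n).trans ?_
    rw [← mul_sum]
    exact mul_le_mul_of_nonneg_left (h M) (by norm_num)
  have hs := summable_of_sum_range_le hnn hpart
  exact ⟨hs, hs.tsum_le_of_sum_range_le hpart⟩

end Pool.Agent.J4.H57.SH
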