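import Pool.Agent.N365.FH.C
import Pool.Agent.J4.H57.SH.Cur
import Pool.Agent.J4.H57.SH.Ht

/-!
# The Shimura maps of the newforms attached to the members of a family, improved exponents (helper57)

`many_five` is copied from the starting file `Pool.Agent.N365.FH.D` and the beginning of the proof of
`shimura` from `Pool.Agent.N365.SM.E` (helper365).
-/

set_option autoImplicit false

namespace Pool.Agent.J4.H57.SH

open Finset
open Pool.Agent.TH133.SH (IsNewform IsBasis CoordBound Hval)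
open Pool.Agent.H39R3 (GMin condW condW_pos)
open Pool.Agent.N365.HY (Many)
open Pool.Agent.N365.FH (Follows)

/-- without the primes two and three -/
theorem many_five {η : ℝ} {B : ℕ} {x y : ℤ} (h : Many η B x y) (hB1 : 1 ≤ B)
    (h6 : (6 : ℝ) ≤ (B : ℝ) ^ (η / 2)) :
    ∃ F : Finset ℕ, (∀ l ∈ F, l.Prime ∧ (l : ℤ) ∣ y ∧ ¬ (l : ℤ) ∣ x ∧ 5 ≤ l) ∧
      (B : ℝ) ^ (η / 2) ≤ ((∏ l ∈ F, l : ℕ) : ℝ) := by
  classical
  obtain ⟨hy, F, hF, hbig⟩ := h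
  have hBpos : (0 : ℝ) < B := by exact_mod_cast hB1
  obtain ⟨G, hG⟩ : ∃ G, G = F.filter fun l => 5 ≤ l := ⟨_, rfl⟩
  have hsub : F ⊆ G ∪ {2, 3} := by
    intro l hl
    rw [Finset.mem_union, hG, Finset.mem_filter, Finset.mem_insert, Finset.mem_singleton]
    by_cases h5 : 5 ≤ l
    · exact Or.inl ⟨hl, h5⟩
    · right
      have hp := (hF l hl).1
      have h2 := hp.two_le
      have h4 : l ≠ 4 := by
        rintro rfl
        revert hp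
        decide
      omega
  have hpos : ∀ l ∈ G ∪ {2, 3}, 1 ≤ l := by
    intro l hl
    rw [Finset.mem_union, hG, Finset.mem_filter, Finset.mem_insert, Finset.mem_singleton] at hl
    omega
  have h1 : ∏ l ∈ F, l ≤ (∏ l ∈ G, l) * 6 := by
    have e1 : ∏ l ∈ F, l ≤ ∏ l ∈ G ∪ {2, 3}, l :=
      Finset.prod_le_prod_of_subset_of_one_le' hsub fun l hl _ => hpos l hl
    have e2 : ∏ l ∈ G ∪ {2, 3}, l ≤ (∏ l ∈ G, l) * ∏ l ∈ ({2, 3} : Finset ℕ), l := by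
      rw [← Finset.prod_union_inter]
      refine Nat.le_mul_of_pos_right _ (Finset.prod_pos fun l hl => ?_)
      exact hpos l (Finset.mem_union_left _ (Finset.mem_inter.mp hl).1)
    refine e1.trans (e2.trans (le_of_eq ?_))
    congr 1
  refine ⟨G, fun l hl => ?_, ?_⟩
  · rw [hG, Finset.mem_filter] at hl
    exact ⟨(hF l hl.1).1, (hF l hl.1).2.1, (hF l hl.1).2.2, hl.2⟩
  · have h4 : (B : ℝ) ^ η ≤ ((∏ l ∈ G, l : ℕ) : ℝ) * (B : ℝ) ^ (η / 2) := by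
      refine hbig.trans ?_
      have h5 : ((∏ l ∈ F, l : ℕ) : ℝ) ≤ ((∏ l ∈ G, l : ℕ) : ℝ) * 6 := by exact_mod_cast h1
      exact h5.trans (mul_le_mul_of_nonneg_left h6 (Nat.cast_nonneg _))
    have h5 : (B : ℝ) ^ η = (B : ℝ) ^ (η / 2) * (B : ℝ) ^ (η / 2) := by
      rw [← Real.rpow_add hBpos]
      congr 1
      ring
    rw [h5] at h4
    exact le_of_mul_le_mul_right h4 (by positivity)

/-- the polynomial bounds for the Shimura maps of all newforms attached to all curves of invariant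
`j` -/
def Sh (κ : ℝ) (j : ℚ) : Prop :=
  ∀ W : WeierstrassCurve ℤ, GMin W → (W.c₄ : ℚ) ^ 3 / (W.Δ : ℚ) = j →
    ∀ (N : ℕ) (a : ℕ → ℤ) (ρ : ℝ), 1 ≤ N → Att N a W ρ → ∀ Ω₁ Ω₂ : ℂ, IsBasis N a Ω₁ Ω₂ →
      ∀ p q r s : ℤ, p * s - q * r = 1 → (N : ℤ) ∣ r →
        (|r| ≤ (N : ℤ) ^ 2 → CoordBound a Ω₁ Ω₂ p q r s (ρ * (N : ℝ) ^ κ)) ∧
        (r ≠ 0 → CoordBound a Ω₁ Ω₂ p q r s
          (ρ * (N : ℝ) ^ (κ + 1 / 2) * (1 + Real.log |(r : ℝ)|)))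

theorem shimura (d : ℕ) {ε κ : ℝ} (hε : 0 < ε) (hκ : 17 / 12 + 4 * (d + 1) / (3 * ε) < κ) :
    Follows (ε / 8) (d + 1) (fun _ j => Sh κ j) := by
  obtain ⟨η, hη⟩ : ∃ η : ℝ, η = (κ - (17 / 12 + 4 * (d + 1) / (3 * ε))) / 2 := ⟨_, rfl⟩
  have hη0 : 0 < η := by rw [hη]; linarith
  obtain ⟨C, hC, h0⟩ := att_coords hη0
  obtain ⟨c0, hc0⟩ : ∃ c0 : ℝ, c0 = (2 * 10 ^ 21 : ℝ) ^ ((1 : ℝ) / 12) := ⟨_, rfl⟩
  have hc00 : 0 < c0 := by rw [hc0]; positivity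
  have hc12 : c0 ^ 12 = 2 * 10 ^ 21 := by
    rw [hc0, ← Real.rpow_natCast, ← Real.rpow_mul (by norm_num)]
    norm_num
  have hlim : Filter.Tendsto (fun B : ℕ => (B : ℝ) ^ (ε / 16)) Filter.atTop Filter.atTop :=
    (tendsto_rpow_atTop (by positivity)).comp tendsto_natCast_atTop_atTop
  obtain ⟨B₀, hB₀⟩ := Filter.eventually_atTop.mp
    (hlim.eventually_ge_atTop (max 6 ((C * c0) ^ (1 / η))))
  refine ⟨B₀, fun B hB hB1 x y hM hx hy W hW hj N a ρ hN hA Ω₁ Ω₂ hb p q r s hdet hr => ?_⟩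
  have hbigB := hB₀ B hB
  have hBpos : (0 : ℝ) < B := by exact_mod_cast hB1
  have hB1' : (1 : ℝ) ≤ B := by exact_mod_cast hB1
  have e16 : ε / 8 / 2 = ε / 16 := by ring
  obtain ⟨F, hF, hbig⟩ := many_five hM hB1 (by
    rw [e16]
    exact (le_max_left _ _).trans hbigB)
  rw [e16] at hbig
  have hy0 : y ≠ 0 := hM.1
  have hx0 : x ≠ 0 := by
    rintro rfl
    have hne : F.Nonempty := by
      rw [Finset.nonempty_iff_ne_empty]
      intro he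
      rw [he, Finset.prod_empty, Nat.cast_one] at hbig
      have := (le_max_left _ _).trans hbigB
      linarith
    obtain ⟨l, hl⟩ := hne
    exact (hF l hl).2.2.1 (dvd_zero _)
  have hjZ : W.c₄ ^ 3 * y = x * W.Δ := by
    have hΔ : (W.Δ : ℚ) ≠ 0 := by exact_mod_cast hW.1
    have hyQ : (y : ℚ) ≠ 0 := by exact_mod_cast hy0
    rw [div_eq_div_iff hΔ hyQ] at hj
    exact_mod_cast hj
  obtain ⟨hH, hdiv⟩ := height_le hW hx0 hy0 hjZ
  have hFd : (∏ l ∈ F, l) ∣ condW W := by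
    refine Finset.prod_primes_dvd _ (fun l hl => (hF l hl).1.prime) fun l hl => ?_
    obtain ⟨g1, g2, g3, g4⟩ := hF l hl
    exact hdiv l g1 g4 g2 g3
  have hcpos : 0 < condW W := condW_pos W
  obtain ⟨c, hc⟩ : ∃ c : ℝ, c = (condW W : ℝ) := ⟨_, rfl⟩
  have hBc : (B : ℝ) ^ (ε / 16) ≤ c := by
    rw [hc]
    refine hbig.trans ?_
    exact_mod_cast Nat.le_of_dvd hcpos hFd
  have hc6 : 6 ≤ c := ((le_max_left _ _).trans hbigB).trans hBc
  have hc0' : 0 < c := by linarith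
  obtain ⟨m, hm⟩ : ∃ m : ℝ, m = 16 * ((d : ℝ) + 1) / ε := ⟨_, rfl⟩
  have hm0 : 0 ≤ m := by rw [hm]; positivity
  have hBM : (B : ℝ) ^ (d + 1) ≤ c ^ m := by
    have h1 : ((B : ℝ) ^ (ε / 16)) ^ m ≤ c ^ m :=
      Real.rpow_le_rpow (by positivity) hBc hm0
    rw [← Real.rpow_mul hBpos.le] at h1
    have e : ε / 16 * m = ((d + 1 : ℕ) : ℝ) := by
      rw [hm]
      push_cast
      field_simp
    rw [e, Real.rpow_natCast] at h1
    exact h1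
  have hN0 : 0 < N := hN
  have hcN : c ≤ N := by
    rw [hc]
    exact_mod_cast Nat.le_of_dvd hN0 hA.lev
  have hNpos : (0 : ℝ) < N := by linarith
  obtain ⟨R, hR⟩ : ∃ R : ℝ, R = c0 * (N : ℝ) ^ ((m + 5) / 12) := ⟨_, rfl⟩
  have hRpos : 0 < R := by rw [hR]; positivity
  have hHR : max (|(W.c₄ : ℝ)| ^ 3) ((W.c₆ : ℝ) ^ 2) ≤ R ^ 12 := by
    refine hH.trans ?_
    rw [← hc, hR, mul_pow, hc12, ← Real.rpow_natCast ((N : ℝ) ^ ((m + 5) / 12)) 12,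
      ← Real.rpow_mul hNpos.le]
    have e : (m + 5) / 12 * ((12 : ℕ) : ℝ) = m + ((5 : ℕ) : ℝ) := by push_cast; ring
    rw [e, Real.rpow_add hNpos, Real.rpow_natCast]
    have h1 : |(x : ℝ)| + |(y : ℝ)| ≤ 2 * c ^ m := by
      have := hx.trans hBM
      have := hy.trans hBM
      linarith
    have h2 : c ^ m ≤ (N : ℝ) ^ m := Real.rpow_le_rpow hc0'.le hcN hm0
    have h3 : c ^ 5 ≤ (N : ℝ) ^ 5 := pow_le_pow_left₀ hc0'.le hcN 5
    calc 10 ^ 21 * (|(x : ℝ)| + |(y : ℝ)|) * c ^ 5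
        ≤ 10 ^ 21 * (2 * (N : ℝ) ^ m) * (N : ℝ) ^ 5 :=
          mul_le_mul (mul_le_mul_of_nonneg_left (h1.trans (by linarith)) (by positivity)) h3
            (by positivity) (by positivity)
      _ = 2 * 10 ^ 21 * ((N : ℝ) ^ m * (N : ℝ) ^ 5) := by ring
  obtain ⟨k1, k2⟩ := h0 N a W ρ R Ω₁ Ω₂ hN hA hRpos hHR hb p q r s hdet hr
  have hρ := hA.pos
  -- the constant is absorbed
  have hCN : C * c0 ≤ (N : ℝ) ^ η := by
    have h1 : (C * c0) ^ (1 / η) ≤ N := (((le_max_right _ _).trans hbigB).trans hBc).trans hcN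
    have h2 := Real.rpow_le_rpow (by positivity) h1 hη0.le
    rw [← Real.rpow_mul (by positivity), one_div, inv_mul_cancel₀ hη0.ne', Real.rpow_one] at h2
    exact h2
  have hκe : κ = η + ((m + 5) / 12 + (1 + η)) := by
    rw [hη, hm]
    field_simp
    ring
  have e1 : C * ρ * R * (N : ℝ) ^ (1 + η) ≤ ρ * (N : ℝ) ^ κ := by
    rw [hR, hκe, Real.rpow_add hNpos η, Real.rpow_add hNpos ((m + 5) / 12)]
    calc C * ρ * (c0 * (N : ℝ) ^ ((m + 5) / 12)) * (N : ℝ) ^ (1 + η)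
        = C * c0 * (ρ * ((N : ℝ) ^ ((m + 5) / 12) * (N : ℝ) ^ (1 + η))) := by ring
      _ ≤ (N : ℝ) ^ η * (ρ * ((N : ℝ) ^ ((m + 5) / 12) * (N : ℝ) ^ (1 + η))) :=
          mul_le_mul_of_nonneg_right hCN (by positivity)
      _ = _ := by ring
  have hκe2 : κ + 1 / 2 = η + ((m + 5) / 12 + (3 / 2 + η)) := by rw [hκe]; ring
  have e2 : C * ρ * R * (N : ℝ) ^ (3 / 2 + η) ≤ ρ * (N : ℝ) ^ (κ + 1 / 2) := by
    rw [hR, hκe2, Real.rpow_add hNpos η, Real.rpow_add hNpos ((m + 5) / 12)]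
    calc C * ρ * (c0 * (N : ℝ) ^ ((m + 5) / 12)) * (N : ℝ) ^ (3 / 2 + η)
        = C * c0 * (ρ * ((N : ℝ) ^ ((m + 5) / 12) * (N : ℝ) ^ (3 / 2 + η))) := by ring
      _ ≤ (N : ℝ) ^ η * (ρ * ((N : ℝ) ^ ((m + 5) / 12) * (N : ℝ) ^ (3 / 2 + η))) :=
          mul_le_mul_of_nonneg_right hCN (by positivity)
      _ = _ := by ring
  refine ⟨fun hrN m' n' hmn => ?_, fun hr0 m' n' hmn => ?_⟩
  · obtain ⟨a1, a2⟩ := k1 hrN m' n' hmn
    exact ⟨a1.trans e1, a2.trans e1⟩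
  · obtain ⟨a1, a2⟩ := k2 hr0 m' n' hmn
    have hlog : 0 ≤ 1 + Real.log |(r : ℝ)| := by
      have h1 : (1 : ℝ) ≤ |(r : ℝ)| := by exact_mod_cast Int.one_le_abs hr0
      have := Real.log_nonneg h1
      linarith
    have e3 := mul_le_mul_of_nonneg_right e2 hlog
    exact ⟨a1.trans e3, a2.trans e3⟩

end Pool.Agent.J4.H57.SH
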