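import Pool.Agent.J4.H57.SH.Dir
import Pool.Agent.N365.SM.C
import Pool.Agent.TH133.SH.GenMain

/-!
# The size of the Shimura map under Weil's bound for the coefficients (helper57)
-/

set_option autoImplicit false

namespace Pool.Agent.J4.H57.SH

open Finset
open Pool.Agent.TH133.SH Pool.Agent.N365.SM

theorem exp_neg_le {x θ : ℝ} (hx : 0 < x) (hθ0 : 0 < θ) (hθ1 : θ ≤ 1) :
    Real.exp (-x) ≤ x ^ (-θ) := by
  rw [Real.rpow_def_of_pos hx, Real.exp_le_exp]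
  have h1 := Real.log_le_sub_one_of_pos hx
  rcases le_total 0 (Real.log x) with h | h
  · nlinarith
  · nlinarith

/-- the bound for the primitive -/
theorem Fser_le {ε : ℝ} (hε : 0 < ε) (hε1 : ε ≤ 1 / 2) : ∃ C : ℝ, 0 < C ∧ ∀ a : ℕ → ℤ, Rel a →
    ∀ τ : ℂ, 0 < τ.im → ‖Fser a τ‖ ≤ C * τ.im ^ (-(1 / 2 + ε)) := by
  obtain ⟨C, hC, h⟩ := dir hε
  refine ⟨C, hC, fun a ha τ hτ => ?_⟩
  obtain ⟨hs, hle⟩ := h a ha
  have hpi := Real.pi_gt_three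
  have hterm : ∀ n : ℕ, ‖(a n : ℂ) / (n : ℂ) *
      Complex.exp (2 * (Real.pi : ℂ) * Complex.I * (n : ℂ) * τ)‖ ≤
      (|(a n : ℝ)| * (n : ℝ) ^ (-(3 / 2 + ε))) * τ.im ^ (-(1 / 2 + ε)) := by
    intro n
    rcases Nat.eq_zero_or_pos n with hn | hn
    · subst hn
      rw [ha.zero]
      simp
    have hnR : (0 : ℝ) < n := by exact_mod_cast hn
    rw [norm_mul, norm_div, Complex.norm_natCast, Complex.norm_intCast, Complex.norm_exp]
    have e1 : (2 * (Real.pi : ℂ) * Complex.I * (n : ℂ) * τ).re = -(2 * Real.pi * (n * τ.im)) := by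
      simp [Complex.mul_re, Complex.mul_im]
      ring
    rw [e1]
    have hx : 0 < (n : ℝ) * τ.im := by positivity
    have h1 : Real.exp (-(2 * Real.pi * (n * τ.im))) ≤ ((n : ℝ) * τ.im) ^ (-(1 / 2 + ε)) := by
      refine le_trans ?_ (exp_neg_le hx (by linarith) (by linarith))
      rw [Real.exp_le_exp]
      nlinarith
    have e2 : (n : ℝ) ^ (-(3 / 2 + ε)) = (n : ℝ) ^ (-(1 / 2 + ε)) / n := by
      rw [show -(3 / 2 + ε) = -(1 / 2 + ε) - 1 by ring, Real.rpow_sub_one hnR.ne']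
    rw [e2]
    rw [Real.mul_rpow hnR.le hτ.le] at h1
    calc |(a n : ℝ)| / n * Real.exp (-(2 * Real.pi * (n * τ.im)))
        ≤ |(a n : ℝ)| / n * ((n : ℝ) ^ (-(1 / 2 + ε)) * τ.im ^ (-(1 / 2 + ε))) :=
          mul_le_mul_of_nonneg_left h1 (by positivity)
      _ = _ := by ring
  unfold Fser
  refine (tsum_of_norm_bounded (hs.hasSum.mul_right _) hterm).trans ?_
  exact mul_le_mul_of_nonneg_right hle (by positivity)

/-- **the bound for the Shimura map** -/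
theorem H_bd {ε : ℝ} (hε : 0 < ε) (hε1 : ε ≤ 1 / 2) : ∃ C : ℝ, 0 < C ∧ ∀ (N : ℕ) (a : ℕ → ℤ),
    IsForm N a → Rel a → ∀ g : Matrix.SpecialLinearGroup (Fin 2) ℤ, InG N g →
      ‖Hs a g‖ ≤ C * |((g 1 0 : ℤ) : ℝ)| ^ (1 / 2 + ε) := by
  obtain ⟨C, hC, hF⟩ := Fser_le hε hε1
  refine ⟨2 * C, by positivity, fun N a ha h g hg => ?_⟩
  by_cases hr : g 1 0 = 0
  · have h2 := (isCuspHom ha Complex.reLm).zero_of_lower (g := g) hr
    have h3 := (isCuspHom ha Complex.imLm).zero_of_lower (g := g) hr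
    have h1 : Hs a g = 0 := Complex.ext h2 h3
    rw [h1, norm_zero]
    positivity
  obtain ⟨r, hr'⟩ : ∃ r : ℝ, r = ((g 1 0 : ℤ) : ℝ) := ⟨_, rfl⟩
  obtain ⟨s, hs'⟩ : ∃ s : ℝ, s = ((g 1 1 : ℤ) : ℝ) := ⟨_, rfl⟩
  have hr0 : r ≠ 0 := by rw [hr']; exact_mod_cast hr
  have hrabs : 1 ≤ |r| := by rw [hr']; exact_mod_cast Int.one_le_abs hr
  obtain ⟨τ, hτ⟩ : ∃ τ : ℂ, τ = ⟨-s / r, 1 / |r|⟩ := ⟨_, rfl⟩
  have him : τ.im = 1 / |r| := by rw [hτ]
  have hpos : 0 < τ.im := by rw [him]; positivity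
  have hden : ‖(r : ℂ) * τ + (s : ℂ)‖ = 1 := by
    have e : (r : ℂ) * τ + (s : ℂ) = ((r / |r| : ℝ) : ℂ) * Complex.I := by
      apply Complex.ext
      · rw [hτ]
        simp
        field_simp
        ring
      · rw [hτ]
        simp
        field_simp
    rw [e, norm_mul, Complex.norm_I, mul_one, Complex.norm_real, norm_div, Real.norm_eq_abs,
      Real.norm_eq_abs, abs_abs, div_self (by linarith)]
  have him2 : (act g τ).im = 1 / |r| := by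
    unfold act
    rw [im_mob (det_real g) hpos, ← hr', ← hs', hden, him]
    simp
  have e1 := diff_eq ha hg hpos
  rw [← e1]
  have b1 := hF a h τ hpos
  have b2 := hF a h (act g τ) (by rw [him2]; positivity)
  rw [him] at b1
  rw [him2] at b2
  have e2 : (1 / |r|) ^ (-(1 / 2 + ε)) = |r| ^ (1 / 2 + ε) := by
    rw [one_div, Real.inv_rpow (abs_nonneg _), Real.rpow_neg (abs_nonneg _), inv_inv]
  rw [e2] at b1 b2
  rw [← hr']
  refine (norm_sub_le _ _).trans ?_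
  linarith

/-- `64 ^ ω(N) = O(N ^ δ)` -/
theorem omega_le {δ : ℝ} (hδ : 0 < δ) : ∃ C : ℝ, 0 < C ∧ ∀ N : ℕ, 1 ≤ N →
    (smallEntry N : ℝ) ≤ C * (N : ℝ) ^ (1 + δ) := by
  classical
  obtain ⟨P, hP⟩ := exists_nat_ge ((64 : ℝ) ^ (1 / δ))
  refine ⟨17 * 64 ^ P, by positivity, fun N hN => ?_⟩
  have hNR : (0 : ℝ) < N := by exact_mod_cast hN
  have h1 : (64 : ℝ) ^ N.primeFactors.card ≤ 64 ^ P * (N : ℝ) ^ δ := by
    have h2 : ∀ p ∈ N.primeFactors, (64 : ℝ) ≤ (if p < P then 64 else 1) * (p : ℝ) ^ δ := by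
      intro p hp
      have hp1 : (1 : ℝ) ≤ p := by exact_mod_cast (Nat.prime_of_mem_primeFactors hp).one_lt.le
      split_ifs with h
      · have : 1 ≤ (p : ℝ) ^ δ := Real.one_le_rpow hp1 hδ.le
        linarith
      · rw [one_mul]
        have h3 : (64 : ℝ) ^ (1 / δ) ≤ p := hP.trans (by exact_mod_cast not_lt.1 h)
        calc (64 : ℝ) = ((64 : ℝ) ^ (1 / δ)) ^ δ := by
              rw [← Real.rpow_mul (by norm_num), one_div, inv_mul_cancel₀ hδ.ne', Real.rpow_one]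
          _ ≤ (p : ℝ) ^ δ := Real.rpow_le_rpow (by positivity) h3 hδ.le
    have h3 : (64 : ℝ) ^ N.primeFactors.card = ∏ p ∈ N.primeFactors, (64 : ℝ) := by
      rw [prod_const]
    rw [h3]
    refine (prod_le_prod (fun _ _ => by norm_num) h2).trans ?_
    rw [prod_mul_distrib]
    refine mul_le_mul ?_ ?_ (prod_nonneg fun p _ => by positivity) (by positivity)
    · rw [prod_ite, prod_const, prod_const_one, mul_one]
      refine pow_le_pow_right₀ (by norm_num) ?_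
      calc (N.primeFactors.filter (fun p => p < P)).card ≤ (range P).card := by
            refine card_le_card fun p hp => ?_
            rw [mem_filter] at hp
            exact mem_range.2 hp.2
        _ = P := card_range P
    · have h4 : ∏ p ∈ N.primeFactors, (p : ℝ) ^ δ = ((∏ p ∈ N.primeFactors, p : ℕ) : ℝ) ^ δ := by
        push_cast
        rw [Real.finsetProd_rpow _ _ (fun p _ => Nat.cast_nonneg p)]
      rw [h4]
      refine Real.rpow_le_rpow (Nat.cast_nonneg _) ?_ hδ.le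
      exact_mod_cast Nat.le_of_dvd (by omega) (Nat.prod_primeFactors_dvd N)
  unfold smallEntry
  push_cast
  rw [Real.rpow_add hNR, Real.rpow_one]
  calc 17 * (64 : ℝ) ^ N.primeFactors.card * N ≤ 17 * (64 ^ P * (N : ℝ) ^ δ) * N := by
        refine mul_le_mul_of_nonneg_right ?_ hNR.le
        exact mul_le_mul_of_nonneg_left h1 (by norm_num)
    _ = _ := by ring

/-- **the coordinates of the values of the Shimura map** -/
theorem coords {ε : ℝ} (hε : 0 < ε) : ∃ C : ℝ, 0 < C ∧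
    ∀ (N : ℕ) (a : ℕ → ℤ) (ρ v : ℝ) (Ω₁ Ω₂ : ℂ), 1 ≤ N → Sep N a ρ v → IsForm N a → Rel a →
      IsBasis N a Ω₁ Ω₂ → ∀ p q r s : ℤ, p * s - q * r = 1 → (N : ℤ) ∣ r →
        CoordBound a Ω₁ Ω₂ p q r s (C * (ρ / v) * |(r : ℝ)| ^ (1 / 2 + ε)) ∧
        (r ≠ 0 → CoordBound a Ω₁ Ω₂ p q r s
          (C * (ρ / v) * (N : ℝ) ^ (3 / 2 + ε) * (1 + Real.log |(r : ℝ)|))) := by
  obtain ⟨η, hη⟩ : ∃ η : ℝ, η = min (ε / 4) (1 / 2) := ⟨_, rfl⟩
  have hη0 : 0 < η := by rw [hη]; positivity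
  have hη1 : η ≤ 1 / 2 := by rw [hη]; exact min_le_right _ _
  have hη2 : η ≤ ε / 4 := by rw [hη]; exact min_le_left _ _
  obtain ⟨C₁, hC₁, h1⟩ := H_bd hη0 hη1
  obtain ⟨C₂, hC₂, h2⟩ := omega_le hη0
  have hC2' : 0 < C₂ ^ (1 / 2 + η) := Real.rpow_pos_of_pos hC₂ _
  refine ⟨max (3 * C₁) (12 * C₁ * C₂ ^ (1 / 2 + η)), by positivity,
    fun N a ρ v Ω₁ Ω₂ hN hsep ha hrel hb p q r s hdet hr => ?_⟩
  have hρ := hsep.hρ
  have hv := hsep.hv
  have hNR : (1 : ℝ) ≤ N := by exact_mod_cast hN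
  have hN0 : (0 : ℝ) < N := by linarith
  have hγ : InG N (Pool.Agent.TH133.SH.mk p q r s hdet) := hr
  have key : ∀ γ : Matrix.SpecialLinearGroup (Fin 2) ℤ, InG N γ →
      |L₁ Ω₁ Ω₂ (Hs a γ)| ≤ 3 * C₁ * (ρ / v) * |((γ 1 0 : ℤ) : ℝ)| ^ (1 / 2 + η) ∧
      |L₂ Ω₂ (Hs a γ)| ≤ 3 * C₁ * (ρ / v) * |((γ 1 0 : ℤ) : ℝ)| ^ (1 / 2 + η) := by
    intro γ hγ'
    obtain ⟨c1, c2⟩ := hsep.coord hb (Hs a γ)
    have h3 := h1 N a ha hrel γ hγ'
    have h4 : 3 * ρ * ‖Hs a γ‖ / v ≤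
        3 * C₁ * (ρ / v) * |((γ 1 0 : ℤ) : ℝ)| ^ (1 / 2 + η) := by
      rw [div_le_iff₀ hv]
      have h5 := mul_le_mul_of_nonneg_left h3 (by positivity : 0 ≤ 3 * ρ)
      refine h5.trans (le_of_eq ?_)
      field_simp
    exact ⟨c1.trans h4, c2.trans h4⟩
  have hto : ∀ X : ℝ, |L₁ Ω₁ Ω₂ (Hs a (Pool.Agent.TH133.SH.mk p q r s hdet))| ≤ X →
      |L₂ Ω₂ (Hs a (Pool.Agent.TH133.SH.mk p q r s hdet))| ≤ X → CoordBound a Ω₁ Ω₂ p q r s X := by
    intro X h1 h2 m n hmn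
    have hHγ : Hs a (Pool.Agent.TH133.SH.mk p q r s hdet) = (m : ℂ) * Ω₁ + (n : ℂ) * Ω₂ := hmn
    rw [hHγ, L₁_apply hb] at h1
    rw [hHγ, L₂_apply hb] at h2
    exact ⟨h1, h2⟩
  have e10 : (Pool.Agent.TH133.SH.mk p q r s hdet) 1 0 = r := rfl
  refine ⟨?_, fun hr0 => ?_⟩
  · obtain ⟨k1, k2⟩ := key _ hγ
    rw [e10] at k1 k2
    have hle : 3 * C₁ * (ρ / v) * |(r : ℝ)| ^ (1 / 2 + η) ≤
        max (3 * C₁) (12 * C₁ * C₂ ^ (1 / 2 + η)) * (ρ / v) * |(r : ℝ)| ^ (1 / 2 + ε) := by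
      rcases eq_or_ne r 0 with h0 | h0
      · rw [h0, Int.cast_zero, abs_zero, Real.zero_rpow (by linarith), Real.zero_rpow (by linarith),
          mul_zero, mul_zero]
      have hr1 : (1 : ℝ) ≤ |(r : ℝ)| := by exact_mod_cast Int.one_le_abs h0
      have h5 : |(r : ℝ)| ^ (1 / 2 + η) ≤ |(r : ℝ)| ^ (1 / 2 + ε) :=
        Real.rpow_le_rpow_of_exponent_le hr1 (by linarith)
      refine mul_le_mul (mul_le_mul_of_nonneg_right (le_max_left _ _) (by positivity)) h5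
        (by positivity) (by positivity)
    exact hto _ (k1.trans hle) (k2.trans hle)
  · have hX : ∀ γ : Matrix.SpecialLinearGroup (Fin 2) ℤ, InG N γ → |γ 1 0| ≤ smallEntry N →
        |L₁ Ω₁ Ω₂ (Hs a γ)| ≤ 3 * C₁ * (ρ / v) * (smallEntry N : ℝ) ^ (1 / 2 + η) ∧
        |L₂ Ω₂ (Hs a γ)| ≤ 3 * C₁ * (ρ / v) * (smallEntry N : ℝ) ^ (1 / 2 + η) := by
      intro γ h3 h4
      obtain ⟨k1, k2⟩ := key γ h3
      have h5 : |((γ 1 0 : ℤ) : ℝ)| ≤ (smallEntry N : ℝ) := by exact_mod_cast h4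
      have h6 : |((γ 1 0 : ℤ) : ℝ)| ^ (1 / 2 + η) ≤ (smallEntry N : ℝ) ^ (1 / 2 + η) :=
        Real.rpow_le_rpow (abs_nonneg _) h5 (by linarith)
      have h7 : 3 * C₁ * (ρ / v) * |((γ 1 0 : ℤ) : ℝ)| ^ (1 / 2 + η) ≤
          3 * C₁ * (ρ / v) * (smallEntry N : ℝ) ^ (1 / 2 + η) :=
        mul_le_mul_of_nonneg_left h6 (by positivity)
      exact ⟨k1.trans h7, k2.trans h7⟩
    have hb1 := growth_small (isCuspHom ha (L₁ Ω₁ Ω₂)) hN (fun γ h3 h4 => (hX γ h3 h4).1) hγ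
      (by rw [e10]; exact hr0)
    have hb2 := growth_small (isCuspHom ha (L₂ Ω₂)) hN (fun γ h3 h4 => (hX γ h3 h4).2) hγ
      (by rw [e10]; exact hr0)
    rw [e10] at hb1 hb2
    have hlog : 0 ≤ 1 + Real.log |(r : ℝ)| := by
      have h1 : (1 : ℝ) ≤ |(r : ℝ)| := by exact_mod_cast Int.one_le_abs hr0
      have := Real.log_nonneg h1
      linarith
    have hse : (smallEntry N : ℝ) ^ (1 / 2 + η) ≤ C₂ ^ (1 / 2 + η) * (N : ℝ) ^ (1 / 2 + ε) := by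
      have h3 := Real.rpow_le_rpow (Nat.cast_nonneg _) (h2 N hN) (by linarith : 0 ≤ 1 / 2 + η)
      rw [Real.mul_rpow hC₂.le (by positivity), ← Real.rpow_mul hN0.le] at h3
      refine h3.trans (mul_le_mul_of_nonneg_left ?_ hC2'.le)
      refine Real.rpow_le_rpow_of_exponent_le hNR ?_
      nlinarith
    have hle : 4 * (3 * C₁ * (ρ / v) * (smallEntry N : ℝ) ^ (1 / 2 + η)) * N *
        (1 + Real.log |(r : ℝ)|) ≤ max (3 * C₁) (12 * C₁ * C₂ ^ (1 / 2 + η)) * (ρ / v) *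
          (N : ℝ) ^ (3 / 2 + ε) * (1 + Real.log |(r : ℝ)|) := by
      refine mul_le_mul_of_nonneg_right ?_ hlog
      have e : (N : ℝ) ^ (3 / 2 + ε) = (N : ℝ) ^ (1 / 2 + ε) * N := by
        rw [show (3 / 2 + ε : ℝ) = (1 / 2 + ε) + 1 by ring, Real.rpow_add hN0, Real.rpow_one]
      rw [e]
      calc 4 * (3 * C₁ * (ρ / v) * (smallEntry N : ℝ) ^ (1 / 2 + η)) * N
          = (12 * C₁ * (ρ / v) * N) * (smallEntry N : ℝ) ^ (1 / 2 + η) := by ring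
        _ ≤ (12 * C₁ * (ρ / v) * N) * (C₂ ^ (1 / 2 + η) * (N : ℝ) ^ (1 / 2 + ε)) :=
            mul_le_mul_of_nonneg_left hse (by positivity)
        _ = (12 * C₁ * C₂ ^ (1 / 2 + η)) * ((ρ / v) * ((N : ℝ) ^ (1 / 2 + ε) * N)) := by ring
        _ ≤ max (3 * C₁) (12 * C₁ * C₂ ^ (1 / 2 + η)) * ((ρ / v) * ((N : ℝ) ^ (1 / 2 + ε) * N)) :=
            mul_le_mul_of_nonneg_right (le_max_right _ _) (by positivity)
        _ = _ := by ring
    have hb1' : |L₁ Ω₁ Ω₂ (Hs a (Pool.Agent.TH133.SH.mk p q r s hdet))| ≤ _ := hb1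
    have hb2' : |L₂ Ω₂ (Hs a (Pool.Agent.TH133.SH.mk p q r s hdet))| ≤ _ := hb2
    exact hto _ (hb1'.trans hle) (hb2'.trans hle)

end Pool.Agent.J4.H57.SH
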