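import Mathlib

/-!
# Truncated counting functions of rational numbers in terms of integers (helper57)
-/

set_option autoImplicit false

namespace Pool.Agent.J4.H57.SH

open Finset NumberField IsDedekindDomain

/-- the product of the primes dividing `n` -/
def rad (n : ℕ) : ℕ := ∏ p ∈ n.primeFactors, p

/-- the prime number of a place -/
noncomputable def prv (v : HeightOneSpectrum (𝓞 ℚ)) : ℕ := Rat.HeightOneSpectrum.natGenerator v

theorem prv_prime (v : HeightOneSpectrum (𝓞 ℚ)) : (prv v).Prime :=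
  Rat.HeightOneSpectrum.prime_natGenerator v

theorem prv_le_iff (v : HeightOneSpectrum (𝓞 ℚ)) (x : ℚ) :
    v.valuation ℚ x ≤ 1 ↔ ¬ prv v ∣ x.den := by
  have : Fact (Nat.Prime ((Rat.HeightOneSpectrum.primesEquiv v : Nat.Primes) : ℕ)) :=
    ⟨(Rat.HeightOneSpectrum.primesEquiv v).2⟩
  have h1 : v.valuation ℚ x ≤ 1 ↔
      Rat.padicValuation ((Rat.HeightOneSpectrum.primesEquiv v : Nat.Primes) : ℕ) x ≤ 1 :=
    Valuation.isEquiv_iff_val_le_one.1 (Rat.HeightOneSpectrum.valuation_equiv_padicValuation v)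
  rw [h1, Rat.padicValuation_le_one_iff]
  rfl

theorem one_lt_prv_iff (v : HeightOneSpectrum (𝓞 ℚ)) (x : ℚ) :
    1 < v.valuation ℚ x ↔ prv v ∣ x.den := by
  rw [← not_le, prv_le_iff, not_not]

theorem prv_lt_iff (v : HeightOneSpectrum (𝓞 ℚ)) {x : ℚ} (hx : x ≠ 0) :
    v.valuation ℚ x < 1 ↔ prv v ∣ x.num.natAbs := by
  have h1 : 1 < v.valuation ℚ x⁻¹ ↔ v.valuation ℚ x < 1 := by
    rw [map_inv₀]
    exact one_lt_inv₀ (zero_lt_iff.2 ((Valuation.ne_zero_iff _).2 hx))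
  rw [← h1, one_lt_prv_iff, Rat.den_inv_of_ne_zero hx]

theorem absNorm_prv (v : HeightOneSpectrum (𝓞 ℚ)) : Ideal.absNorm v.asIdeal = prv v := by
  have h1 : ((prv v : ℕ) : 𝓞 ℚ) ∈ v.asIdeal := by
    have h0 : prv v ∣ prv v := dvd_rfl
    unfold prv at h0 ⊢
    rw [Rat.HeightOneSpectrum.natGenerator_dvd_iff,
      ← map_natCast (Rat.IsIntegralClosure.intEquiv (𝓞 ℚ)) _, Ideal.apply_mem_of_equiv_iff] at h0
    exact h0
  have h2 : Ideal.absNorm v.asIdeal ∣ Ideal.absNorm (Ideal.span {((prv v : ℕ) : 𝓞 ℚ)}) :=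
    Ideal.absNorm_dvd_absNorm_of_le ((Ideal.span_singleton_le_iff_mem _).mpr h1)
  rw [Ideal.absNorm_span_natCast, RingOfIntegers.rank, Module.finrank_self, pow_one] at h2
  rcases (Nat.dvd_prime (prv_prime v)).1 h2 with h | h
  · exact absurd (Ideal.absNorm_eq_one_iff.1 h) v.isPrime.ne_top
  · exact h

theorem finsum_prv (P : HeightOneSpectrum (𝓞 ℚ) → Prop) [DecidablePred P] {M : ℕ} (hM : M ≠ 0)
    (h : ∀ v, P v ↔ prv v ∣ M) :
    ∑ᶠ v, (if P v then Real.log (Ideal.absNorm v.asIdeal) else 0 : ℝ) = Real.log (rad M) := by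
  obtain ⟨g, hg⟩ : ∃ g : ℕ → ℝ, g = fun n => if n ∣ M then Real.log n else 0 := ⟨_, rfl⟩
  obtain ⟨F, hF⟩ : ∃ F : Nat.Primes → ℝ, F = fun q => g q.1 := ⟨_, rfl⟩
  have e1 : ∀ v : HeightOneSpectrum (𝓞 ℚ),
      (if P v then Real.log (Ideal.absNorm v.asIdeal) else 0 : ℝ) =
        F (Rat.HeightOneSpectrum.primesEquiv v) := by
    intro v
    have e2 : (Rat.HeightOneSpectrum.primesEquiv v : Nat.Primes).1 = prv v := rfl
    rw [hF]
    show _ = g (Rat.HeightOneSpectrum.primesEquiv v : Nat.Primes).1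
    rw [e2, hg, absNorm_prv]
    exact if_congr (h v) rfl rfl
  rw [finsum_congr e1, finsum_comp_equiv (Rat.HeightOneSpectrum.primesEquiv (R := 𝓞 ℚ)), hF]
  have e3 : (∑ᶠ q : Nat.Primes, g q.1) = ∑ᶠ (n : ℕ) (_ : n.Prime), g n :=
    finsum_subtype_eq_finsum_cond Nat.Prime
  rw [e3, finsum_cond_eq_sum_of_cond_iff (t := M.primeFactors) g (fun {n} hn => by
    have hd : n ∣ M := by
      by_contra hcon
      apply hn
      rw [hg]
      exact if_neg hcon
    rw [Nat.mem_primeFactors]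
    exact ⟨fun h => ⟨h, hd, hM⟩, fun h => h.1⟩)]
  unfold rad
  rw [Nat.cast_prod, Real.log_prod fun p hp => by
    exact_mod_cast (Nat.prime_of_mem_primeFactors hp).ne_zero]
  refine sum_congr rfl fun p hp => ?_
  rw [hg]
  exact if_pos (Nat.dvd_of_mem_primeFactors hp)

theorem sub_num (j : ℚ) : (j - 1728).num = j.num - 1728 * j.den := by
  have h1 : (j - 1728).den = j.den := Rat.sub_ofNat_den j 1728
  have h2 : ((j - 1728).num : ℚ) = (j - 1728) * (j - 1728).den := (Rat.mul_den_eq_num _).symm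
  rw [h1, sub_mul, Rat.mul_den_eq_num] at h2
  exact_mod_cast h2

/-- the integer whose prime divisors are the primes at which `j` reduces to `0`, `1728` or `∞` -/
def jM (j : ℚ) : ℕ := (j.num * j.den * (j.num - 1728 * j.den)).natAbs

theorem jM_ne {j : ℚ} (h0 : j ≠ 0) (h1 : j ≠ 1728) : jM j ≠ 0 := by
  unfold jM
  rw [Int.natAbs_ne_zero]
  refine mul_ne_zero (mul_ne_zero (Rat.num_ne_zero.2 h0) (by exact_mod_cast j.den_nz)) ?_
  rw [← sub_num]
  exact Rat.num_ne_zero.2 (sub_ne_zero.2 h1)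

theorem near_iff {j : ℚ} (h0 : j ≠ 0) (h1 : j ≠ 1728) (v : HeightOneSpectrum (𝓞 ℚ)) :
    (v.valuation ℚ j < 1 ∨ v.valuation ℚ (j - 1728) < 1 ∨ 1 < v.valuation ℚ j) ↔
      prv v ∣ jM j := by
  rw [prv_lt_iff v h0, prv_lt_iff v (sub_ne_zero.2 h1), one_lt_prv_iff, sub_num]
  unfold jM
  rw [Int.natAbs_mul, Int.natAbs_mul, Int.natAbs_natCast, (prv_prime v).dvd_mul,
    (prv_prime v).dvd_mul]
  tauto

end Pool.Agent.J4.H57.SH
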