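import Pool.Agent.H341R2.NF.ECCount
import Pool.Agent.H304R2.EC.Coef

/-!
# Bounds for the coefficients attached to a Weierstrass equation (helper57)

`|p - #{affine points modulo p}| ≤ 2 √p` for every prime `p` and every Weierstrass equation, and the
resulting bound for a sequence which satisfies the Hecke relations.
-/

set_option autoImplicit false

namespace Pool.Agent.J4.H57.SH

open Finset Polynomial

/-- the number of the solutions modulo `p` of the affine equation -/
noncomputable def cnt (W : WeierstrassCurve ℤ) (p : ℕ) : ℕ :=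
  {P : ZMod p × ZMod p | P.2 ^ 2 + (W.a₁ : ZMod p) * P.1 * P.2 + (W.a₃ : ZMod p) * P.2 =
    P.1 ^ 3 + (W.a₂ : ZMod p) * P.1 ^ 2 + (W.a₄ : ZMod p) * P.1 + (W.a₆ : ZMod p)}.ncard

theorem cnt_le (W : WeierstrassCurve ℤ) {p : ℕ} (hp : p.Prime) : cnt W p ≤ 2 * p := by
  classical
  have : Fact p.Prime := ⟨hp⟩
  obtain ⟨S, hS⟩ : ∃ S : Finset (ZMod p × ZMod p), S = univ.filter fun P =>
    P.2 ^ 2 + (W.a₁ : ZMod p) * P.1 * P.2 + (W.a₃ : ZMod p) * P.2 =
    P.1 ^ 3 + (W.a₂ : ZMod p) * P.1 ^ 2 + (W.a₄ : ZMod p) * P.1 + (W.a₆ : ZMod p) := ⟨_, rfl⟩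
  have e : cnt W p = S.card := by
    unfold cnt
    rw [← Set.ncard_coe_finset, hS]
    congr 1
    ext P
    simp
  rw [e, card_eq_sum_card_fiberwise (f := fun P : ZMod p × ZMod p => P.1)
    (t := (univ : Finset (ZMod p))) (fun _ _ => mem_coe.mpr (mem_univ _))]
  have h2 : ∀ x ∈ (univ : Finset (ZMod p)), (S.filter fun P => P.1 = x).card ≤ 2 := by
    intro x _
    obtain ⟨Q, hQ⟩ : ∃ Q : Polynomial (ZMod p), Q = Polynomial.X ^ 2 +
      Polynomial.C ((W.a₁ : ZMod p) * x + (W.a₃ : ZMod p)) * Polynomial.X +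
      Polynomial.C (-(x ^ 3 + (W.a₂ : ZMod p) * x ^ 2 + (W.a₄ : ZMod p) * x + (W.a₆ : ZMod p))) :=
      ⟨_, rfl⟩
    have hdeg : Q.natDegree = 2 := by
      rw [hQ]
      compute_degree!
    have hQ0 : Q ≠ 0 := by
      rintro h0
      rw [h0, Polynomial.natDegree_zero] at hdeg
      omega
    have hcard : (S.filter fun P => P.1 = x).card ≤ Q.roots.toFinset.card := by
      refine card_le_card_of_injOn (fun P => P.2) ?_ ?_
      · intro P hP
        rw [mem_coe, mem_filter, hS, mem_filter] at hP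
        obtain ⟨⟨-, h1⟩, h3⟩ := hP
        rw [mem_coe, Multiset.mem_toFinset, Polynomial.mem_roots hQ0, Polynomial.IsRoot.def, hQ]
        simp only [Polynomial.eval_add, Polynomial.eval_pow, Polynomial.eval_X,
          Polynomial.eval_mul, Polynomial.eval_C]
        rw [← h3]
        linear_combination h1
      · intro P hP P' hP' h
        rw [mem_coe, mem_filter] at hP hP'
        exact Prod.ext (hP.2.trans hP'.2.symm) h
    refine hcard.trans ((Multiset.toFinset_card_le _).trans ((Polynomial.card_roots' _).trans ?_))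
    rw [hdeg]
  refine (sum_le_sum h2).trans (le_of_eq ?_)
  rw [sum_const, card_univ, ZMod.card, smul_eq_mul, mul_comm]

/-- **Weil's bound** for the affine points of an arbitrary Weierstrass equation modulo `p` -/
theorem cnt_weil (W : WeierstrassCurve ℤ) {p : ℕ} (hp : p.Prime) :
    |(p : ℝ) - (cnt W p : ℝ)| ≤ 2 * Real.sqrt p := by
  have hle := cnt_le W hp
  have hleR : (cnt W p : ℝ) ≤ 2 * p := by exact_mod_cast hle
  have hp0 : (0 : ℝ) < p := by exact_mod_cast hp.pos
  have h0 : (0 : ℝ) ≤ cnt W p := Nat.cast_nonneg _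
  rcases lt_or_ge p 5 with h5 | h5
  · have h1 : |(p : ℝ) - (cnt W p : ℝ)| ≤ p := by
      rw [abs_le]
      constructor <;> linarith
    refine h1.trans ?_
    have h4 : (p : ℝ) ≤ 4 := by
      have : p ≤ 4 := by omega
      exact_mod_cast this
    have h6 : (Real.sqrt p) * (Real.sqrt p) = p := Real.mul_self_sqrt hp0.le
    have h7 : Real.sqrt p ≤ 2 := by
      rw [show (2 : ℝ) = Real.sqrt 4 by
        rw [show (4 : ℝ) = 2 ^ 2 by norm_num, Real.sqrt_sq (by norm_num)]]
      exact Real.sqrt_le_sqrt h4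
    have h8 := Real.sqrt_nonneg (p : ℝ)
    nlinarith
  · have : Fact p.Prime := ⟨hp⟩
    have hk6 : (6 : ZMod p) ≠ 0 := by
      intro h
      have h1 : ((6 : ℕ) : ZMod p) = 0 := by exact_mod_cast h
      rw [ZMod.natCast_eq_zero_iff] at h1
      have h2 : p ∣ 2 * 3 := h1
      rcases (Nat.Prime.dvd_mul hp).mp h2 with h | h
      · have := Nat.le_of_dvd (by norm_num) h; omega
      · have := Nat.le_of_dvd (by norm_num) h; omega
    obtain ⟨V, hV⟩ : ∃ V : WeierstrassCurve (ZMod p), V = W.map (Int.castRingHom (ZMod p)) :=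
      ⟨_, rfl⟩
    have e1 : cnt W p = Pool.Agent.H341R2.EC.aff V := by
      unfold cnt Pool.Agent.H341R2.EC.aff
      rw [← Nat.card_coe_set_eq, hV]
      rfl
    have e2 := Pool.Agent.H341R2.EC.aff_eq_short hk6 V
    have e3 := Pool.Agent.H341R2.EC.short_eq hk6 V.c₄ V.c₆
    rw [← e2, ← e1, ZMod.card] at e3
    have h2 : (2 : ZMod p) ≠ 0 := by
      intro h; apply hk6
      have : (6 : ZMod p) = 3 * 2 := by norm_num
      rw [this, h, mul_zero]
    have hk : ringChar (ZMod p) ≠ 2 := by
      intro h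
      apply h2
      have := ringChar.Nat.cast_ringChar (R := ZMod p)
      rw [h] at this
      exact_mod_cast this
    have hdeg := Pool.Agent.H341R2.EC.cub_natDegree V.c₄ V.c₆
    have h1 := Pool.Agent.H341R2.Sharp.weil_sharp hk (Pool.Agent.H341R2.EC.cub V.c₄ V.c₆)
      (by omega) (by
      intro a q hq
      have ha : a ≠ 0 := by
        rintro rfl
        rw [C_0, zero_mul] at hq
        rw [hq] at hdeg
        simp at hdeg
      have hqd : 2 * q.natDegree = 3 := by
        rw [hq, natDegree_C_mul ha, natDegree_pow] at hdeg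
        exact hdeg
      omega)
    rw [hdeg, ZMod.card] at h1
    have e4 : (cnt W p : ℝ) = p + ∑ x : ZMod p,
        (quadraticChar (ZMod p) ((Pool.Agent.H341R2.EC.cub V.c₄ V.c₆).eval x) : ℝ) := by
      have := congrArg (fun z : ℤ => (z : ℝ)) e3
      push_cast at this
      exact this
    rw [e4, show (p : ℝ) - (p + ∑ x : ZMod p,
        (quadraticChar (ZMod p) ((Pool.Agent.H341R2.EC.cub V.c₄ V.c₆).eval x) : ℝ)) =
        -(∑ x : ZMod p,
        (quadraticChar (ZMod p) ((Pool.Agent.H341R2.EC.cub V.c₄ V.c₆).eval x) : ℝ)) by ring,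
      abs_neg]
    refine h1.trans (le_of_eq ?_)
    norm_num

/-- the relations which are used: at every prime either the Hecke relation or complete
multiplicativity, and the bound for the coefficient -/
structure Rel (a : ℕ → ℤ) : Prop where
  zero : a 0 = 0
  one : a 1 = 1
  bd : ∀ p : ℕ, p.Prime → |(a p : ℝ)| ≤ 2 * Real.sqrt p
  two : |(a 2 : ℝ)| ≤ 2
  rel : ∀ p : ℕ, p.Prime →
    (∀ n : ℕ, a (p * n) + (if p ∣ n then (p : ℤ) * a (n / p) else 0) = a p * a n) ∨
    (∀ n : ℕ, a (p * n) = a p * a n)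

/-- the values at `p ^ k m` -/
theorem Rel.pow {a : ℕ → ℤ} (h : Rel a) {p : ℕ} (hp : p.Prime) {m : ℕ} (hm : ¬ p ∣ m) (k : ℕ) :
    |(a (p ^ k * m) : ℝ)| ≤ ((k + 1) * Real.sqrt p ^ k) * |(a m : ℝ)| ∨
    |(a (p ^ k * m) : ℝ)| = |(a p : ℝ)| ^ k * |(a m : ℝ)| := by
  have hp0 : (0 : ℝ) ≤ p := Nat.cast_nonneg _
  rcases h.rel p hp with hr | hr
  · left
    by_cases hm0 : (a m : ℝ) = 0
    · -- all values vanish
      have key : ∀ k : ℕ, (a (p ^ k * m) : ℝ) = 0 ∧ (a (p ^ (k + 1) * m) : ℝ) = 0 := by
        intro k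
        induction k with
        | zero =>
          refine ⟨by simpa using hm0, ?_⟩
          have h1 := hr m
          rw [if_neg hm, add_zero] at h1
          rw [zero_add, pow_one]
          have := congrArg (fun z : ℤ => (z : ℝ)) h1
          push_cast at this
          rw [this, hm0, mul_zero]
        | succ k ih =>
          refine ⟨ih.2, ?_⟩
          have h1 := hr (p ^ (k + 1) * m)
          have hd : p ∣ p ^ (k + 1) * m := (dvd_pow_self p (by omega)).mul_right _
          rw [if_pos hd] at h1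
          have e1 : p ^ (k + 1) * m / p = p ^ k * m := by
            rw [pow_succ', mul_assoc, Nat.mul_div_cancel_left _ hp.pos]
          have e2 : p * (p ^ (k + 1) * m) = p ^ (k + 1 + 1) * m := by
            rw [pow_succ' p (k + 1), mul_assoc]
          rw [e1, e2] at h1
          have := congrArg (fun z : ℤ => (z : ℝ)) h1
          push_cast at this
          rw [ih.1, ih.2] at this
          linarith
      rw [(key k).1, hm0, abs_zero, mul_zero]
    · obtain ⟨F, hF⟩ : ∃ F : ℕ → ℝ, F = fun k => (a (p ^ k * m) : ℝ) / (a m : ℝ) := ⟨_, rfl⟩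
      have hbd := h.bd p hp
      obtain ⟨u, v, h1, h2, h3, h4⟩ := Pool.Agent.H304R2.EC.CoefLib.exists_uv (a p : ℝ) (p : ℝ) (by
        have h5 : |(a p : ℝ)| ^ 2 ≤ (2 * Real.sqrt p) ^ 2 := pow_le_pow_left₀ (abs_nonneg _) hbd 2
        rw [sq_abs, mul_pow, Real.sq_sqrt hp0] at h5
        linarith)
      have hb := Pool.Agent.H304R2.EC.CoefLib.hs_bound (a p : ℝ) (p : ℝ) (Real.sqrt p) u v h1 h2 h3 h4 F
        (by rw [hF]; simp only [pow_zero, one_mul]; exact div_self hm0)
        (by
          rw [hF]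
          simp only [pow_one]
          have h5 := hr m
          rw [if_neg hm, add_zero] at h5
          have := congrArg (fun z : ℤ => (z : ℝ)) h5
          push_cast at this
          rw [this, mul_div_assoc, div_self hm0, mul_one])
        (by
          intro k
          rw [hF]
          simp only
          have h5 := hr (p ^ (k + 1) * m)
          have hd : p ∣ p ^ (k + 1) * m := (dvd_pow_self p (by omega)).mul_right _
          rw [if_pos hd] at h5
          have e1 : p ^ (k + 1) * m / p = p ^ k * m := by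
            rw [pow_succ', mul_assoc, Nat.mul_div_cancel_left _ hp.pos]
          have e2 : p * (p ^ (k + 1) * m) = p ^ (k + 2) * m := by
            rw [pow_succ' p (k + 1), mul_assoc]
          rw [e1, e2] at h5
          have := congrArg (fun z : ℤ => (z : ℝ)) h5
          push_cast at this
          field_simp
          linarith) k
      have e : F k = (a (p ^ k * m) : ℝ) / (a m : ℝ) := by rw [hF]
      rw [e, abs_div, div_le_iff₀ (abs_pos.2 hm0)] at hb
      exact hb
  · right
    induction k with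
    | zero => simp
    | succ k ih =>
      have e2 : p ^ (k + 1) * m = p * (p ^ k * m) := by rw [pow_succ', mul_assoc]
      rw [e2, hr]
      push_cast
      rw [abs_mul, ih, pow_succ]
      ring

/-- the number of prime factors, with multiplicity, as an exponent of two: completely
multiplicative -/
noncomputable def tw (n : ℕ) : ℝ := 2 ^ (ArithmeticFunction.cardFactors n)

theorem tw_mul {m n : ℕ} (hm : m ≠ 0) (hn : n ≠ 0) : tw (m * n) = tw m * tw n := by
  unfold tw
  rw [ArithmeticFunction.cardFactors_mul hm hn, pow_add]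

theorem tw_prime_pow {p : ℕ} (hp : p.Prime) (k : ℕ) : tw (p ^ k) = 2 ^ k := by
  unfold tw
  rw [ArithmeticFunction.cardFactors_apply_prime_pow hp]

theorem succ_le_two_pow (k : ℕ) : ((k : ℝ) + 1) ≤ 2 ^ k := by
  have : k + 1 ≤ 2 ^ k := Nat.lt_two_pow_self
  exact_mod_cast this

/-- odd arguments -/
theorem Rel.odd {a : ℕ → ℤ} (h : Rel a) : ∀ n : ℕ, ¬ 2 ∣ n →
    |(a n : ℝ)| ≤ Real.sqrt n * tw n := by
  intro n
  induction n using Nat.strong_induction_on with
  | _ n ih =>
    intro hn
    rcases Nat.lt_or_ge 1 n with h1 | h1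
    · obtain ⟨p, hp⟩ : ∃ p, p = n.minFac := ⟨_, rfl⟩
      have hpp : p.Prime := by rw [hp]; exact Nat.minFac_prime (by omega)
      have hpn : p ∣ n := by rw [hp]; exact Nat.minFac_dvd n
      obtain ⟨k, m, hm, hkm⟩ := Nat.exists_eq_pow_mul_and_not_dvd (n := n) (by omega) p
        hpp.ne_one
      have hk0 : k ≠ 0 := by
        rintro rfl
        rw [pow_zero, one_mul] at hkm
        rw [hkm] at hpn
        exact hm hpn
      have hm0 : m ≠ 0 := by
        rintro rfl
        exact hm (dvd_zero _)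
      have hpk : 1 < p ^ k := Nat.one_lt_pow hk0 hpp.one_lt
      have hmn : m < n := by
        rw [hkm]
        have : 0 < m := Nat.pos_of_ne_zero hm0
        nlinarith
      have h2m : ¬ 2 ∣ m := fun hd => hn (by rw [hkm]; exact hd.mul_left _)
      have hi := ih m hmn h2m
      have hsp : (0 : ℝ) ≤ Real.sqrt p := Real.sqrt_nonneg _
      have e1 : Real.sqrt n * tw n = (Real.sqrt p ^ k * 2 ^ k) * (Real.sqrt m * tw m) := by
        rw [hkm, tw_mul (by positivity) hm0, tw_prime_pow hpp]
        push_cast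
        rw [Real.sqrt_mul (by positivity)]
        have : Real.sqrt ((p : ℝ) ^ k) = Real.sqrt p ^ k := by
          rw [Real.sqrt_eq_iff_mul_self_eq (by positivity) (by positivity), ← mul_pow,
            Real.mul_self_sqrt (Nat.cast_nonneg _)]
        rw [this]
        ring
      have hc : |(a n : ℝ)| ≤ (Real.sqrt p ^ k * 2 ^ k) * |(a m : ℝ)| := by
        rcases h.pow hpp hm k with hh | hh
        · rw [← hkm] at hh
          refine hh.trans (mul_le_mul_of_nonneg_right ?_ (abs_nonneg _))
          rw [mul_comm]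
          exact mul_le_mul_of_nonneg_left (succ_le_two_pow k) (by positivity)
        · rw [← hkm] at hh
          rw [hh]
          refine mul_le_mul_of_nonneg_right ?_ (abs_nonneg _)
          have := pow_le_pow_left₀ (abs_nonneg _) (h.bd p hpp) k
          rw [mul_pow] at this
          linarith
      rw [e1]
      exact hc.trans (mul_le_mul_of_nonneg_left hi (by positivity))
    · interval_cases n
      · exact absurd (dvd_zero 2) hn
      · rw [h.one]
        simp [tw]

theorem two_ineq (k : ℕ) : ((k : ℝ) + 1) * Real.sqrt 2 ^ k ≤ 3 / 2 * 2 ^ k := by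
  have h2 : Real.sqrt 2 * Real.sqrt 2 = 2 := Real.mul_self_sqrt (by norm_num)
  have h0 : (0 : ℝ) < Real.sqrt 2 := by positivity
  have hlo : (1.4 : ℝ) ≤ Real.sqrt 2 := by
    refine Real.le_sqrt_of_sq_le ?_
    norm_num
  have hhi : Real.sqrt 2 ≤ 1.5 := by
    rw [Real.sqrt_le_iff]
    constructor <;> norm_num
  have e : (2 : ℝ) ^ k = Real.sqrt 2 ^ k * Real.sqrt 2 ^ k := by rw [← mul_pow, h2]
  -- it is enough that `k + 1 ≤ (3 / 2) (√2) ^ k`
  have key : ∀ k : ℕ, 2 ≤ k → ((k : ℝ) + 1) ≤ 3 / 2 * Real.sqrt 2 ^ k := by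
    intro k hk
    induction k, hk using Nat.le_induction with
    | base =>
      rw [pow_two, h2]
      norm_num
    | succ k hk ih =>
      have hk2 : (2 : ℝ) ≤ k := by exact_mod_cast hk
      rw [pow_succ]
      push_cast
      nlinarith
  have key' : ((k : ℝ) + 1) ≤ 3 / 2 * Real.sqrt 2 ^ k := by
    rcases Nat.lt_or_ge k 2 with h | h
    · interval_cases k
      · norm_num
      · rw [pow_one]
        norm_num
        linarith
    · exact key k h
  rw [e]
  have hpos : 0 ≤ Real.sqrt 2 ^ k := by positivity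
  nlinarith

/-- the bound for all arguments -/
theorem Rel.all {a : ℕ → ℤ} (h : Rel a) {k m : ℕ} (hm : ¬ 2 ∣ m) :
    |(a (2 ^ k * m) : ℝ)| ≤ 3 / 2 * 2 ^ k * (Real.sqrt m * tw m) := by
  have h1 := h.odd m hm
  rcases h.pow Nat.prime_two hm k with hh | hh
  · refine hh.trans ?_
    have h2 := two_ineq k
    push_cast
    exact mul_le_mul h2 h1 (abs_nonneg _) (by positivity)
  · rw [hh]
    have h2 : |((a 2 : ℤ) : ℝ)| ^ k ≤ 2 ^ k := pow_le_pow_left₀ (abs_nonneg _) h.two k
    have h3 : |((a 2 : ℤ) : ℝ)| ^ k ≤ 3 / 2 * 2 ^ k := by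
      have : (0 : ℝ) < 2 ^ k := by positivity
      linarith
    exact mul_le_mul h3 h1 (abs_nonneg _) (by positivity)

end Pool.Agent.J4.H57.SH
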